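import Pool.Agent.V11293.EXT.Main

/-!
# MP_8e2340_co : the distinguishing extension number of the plane under rigid motions is 4
-/

namespace Pool.Agent.Results.MP_8e2340_co.RigidMotionsFour

open Pool.Agent.V11293.EXT

/-- A colouring `c` is `Γ`-distinguishing if only the identity of `Γ` preserves it. -/
def Distinguishing (Γ : Type*) {X K : Type*} [Group Γ] [MulAction Γ X] (c : X → K) : Prop :=
  ∀ g : Γ, (∀ x, c (g • x) = c x) → g = 1

/-- `D_Γ(X)`: the least `k` for which a `Γ`-distinguishing `k`-colouring exists. -/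
noncomputable def distNumber (Γ X : Type*) [Group Γ] [MulAction Γ X] : ℕ :=
  sInf {k : ℕ | ∃ c : X → Fin k, Distinguishing Γ c}

/-- `W` is admissible if its pointwise stabiliser in `Γ` is trivial. -/
def Admissible (Γ : Type*) {X : Type*} [Group Γ] [MulAction Γ X] (W : Set X) : Prop :=
  ∀ g : Γ, (∀ w ∈ W, g • w = w) → g = 1

/-- `P(W, Γ)` with `k` colours: every `k`-colouring of the complement of `W` extends to a
`Γ`-distinguishing `k`-colouring. -/
def ExtProp (Γ : Type*) {X : Type*} [Group Γ] [MulAction Γ X] (k : ℕ) (W : Set X) : Prop :=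
  ∀ c : {x // x ∉ W} → Fin k, ∃ c' : X → Fin k,
    (∀ x : {x // x ∉ W}, c' x = c x) ∧ Distinguishing Γ c'

/-- `ext_D(X, Γ)`: the least `n` such that `P(W, Γ)`, with `k = D_Γ(X)` colours, holds for every
admissible `W` (finite or infinite) with at least `n` elements; `⊤` if there is no such `n`. -/
noncomputable def extD (Γ X : Type*) [Group Γ] [MulAction Γ X] : ℕ∞ :=
  sInf ((fun n : ℕ => (n : ℕ∞)) '' {n : ℕ | ∀ W : Set X, Admissible Γ W → (n : ℕ∞) ≤ W.encard →
    ExtProp Γ (distNumber Γ X) W})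

/-- The plane. -/
abbrev Plane : Type := Fin 2 → ℝ

theorem so_entries {A : Matrix (Fin 2) (Fin 2) ℝ} (hA : A ∈ Matrix.specialOrthogonalGroup (Fin 2) ℝ) :
    A 1 1 = A 0 0 ∧ A 0 1 = - A 1 0 ∧ A 0 0 ^ 2 + A 1 0 ^ 2 = 1 := by
  rw [Matrix.mem_specialOrthogonalGroup_iff] at hA
  obtain ⟨h1, h2⟩ := hA
  rw [Matrix.mem_orthogonalGroup_iff] at h1
  have e00 := congrFun (congrFun h1 0) 0
  have e11 := congrFun (congrFun h1 1) 1
  simp only [Matrix.mul_apply, Fin.sum_univ_two, Matrix.transpose_apply,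
    Matrix.one_apply_eq] at e00 e11
  rw [Matrix.det_fin_two] at h2
  have h3 : (A 0 0 - A 1 1) ^ 2 + (A 0 1 + A 1 0) ^ 2 = 0 := by nlinarith
  have h4 : A 0 0 - A 1 1 = 0 := by nlinarith [sq_nonneg (A 0 0 - A 1 1), sq_nonneg (A 0 1 + A 1 0)]
  have h5 : A 0 1 + A 1 0 = 0 := by nlinarith [sq_nonneg (A 0 0 - A 1 1), sq_nonneg (A 0 1 + A 1 0)]
  refine ⟨by linarith, by linarith, ?_⟩
  have h6 : A 1 0 = - A 0 1 := by linarith
  rw [h6]; nlinarith

/-- `SE(2)`: the maps `v ↦ A v + b` with `A ∈ SO(2)` and `b ∈ ℝ²`. -/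
def SE2 : Subgroup (Equiv.Perm Plane) where
  carrier := {g | ∃ A ∈ Matrix.specialOrthogonalGroup (Fin 2) ℝ, ∃ b : Plane,
    ∀ v, g v = A.mulVec v + b}
  mul_mem' := by
    rintro g h ⟨A, hA, b, hg⟩ ⟨B, hB, c, hh⟩
    refine ⟨A * B, mul_mem hA hB, A.mulVec c + b, fun v => ?_⟩
    rw [Equiv.Perm.mul_apply, hg, hh, Matrix.mulVec_add, Matrix.mulVec_mulVec, add_assoc]
  one_mem' := ⟨1, one_mem _, 0, fun v => by simp⟩
  inv_mem' := by
    rintro g ⟨A, hA, b, hg⟩
    have h := Matrix.mem_specialOrthogonalGroup_iff.1 hA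
    have h1 : A * A.transpose = 1 := (Matrix.mem_orthogonalGroup_iff _ _).1 h.1
    have h2 : A.transpose * A = 1 := (Matrix.mem_orthogonalGroup_iff' _ _).1 h.1
    refine ⟨A.transpose, ?_, -(A.transpose).mulVec b, fun v => ?_⟩
    · rw [Matrix.mem_specialOrthogonalGroup_iff, Matrix.mem_orthogonalGroup_iff,
        Matrix.transpose_transpose]
      refine ⟨h2, ?_⟩
      rw [Matrix.det_transpose, h.2]
    · rw [Equiv.Perm.inv_def, Equiv.symm_apply_eq, hg, Matrix.mulVec_add, Matrix.mulVec_mulVec, h1,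
        Matrix.mulVec_neg, Matrix.mulVec_mulVec, h1]
      simp

/-- Identification of the plane with the complex numbers. -/
noncomputable def toC : Plane ≃ ℂ where
  toFun v := ⟨v 0, v 1⟩
  invFun z := ![z.re, z.im]
  left_inv v := by ext i; fin_cases i <;> rfl
  right_inv z := by simp

theorem se2_toC {g : Equiv.Perm Plane} (hg : g ∈ SE2) : ∃ ρ t : ℂ, ‖ρ‖ = 1 ∧
    (∀ v, toC (g v) = ρ * toC v + t) := by
  obtain ⟨A, hA, b, hgv⟩ := hg
  obtain ⟨e1, e2, e3⟩ := so_entries hA
  refine ⟨⟨A 0 0, A 1 0⟩, toC b, ?_, fun v => ?_⟩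
  · have h : ‖(⟨A 0 0, A 1 0⟩ : ℂ)‖ ^ 2 = 1 := by
      rw [← Complex.normSq_eq_norm_sq, Complex.normSq_mk]
      nlinarith
    have h0 : 0 ≤ ‖(⟨A 0 0, A 1 0⟩ : ℂ)‖ := norm_nonneg _
    nlinarith
  · rw [hgv]
    apply Complex.ext
    · simp only [toC, Equiv.coe_fn_mk, Pi.add_apply, Complex.add_re, Complex.mul_re,
        Matrix.mulVec, dotProduct, Fin.sum_univ_two]
      rw [e2]; ring
    · simp only [toC, Equiv.coe_fn_mk, Pi.add_apply, Complex.add_im, Complex.mul_im,
        Matrix.mulVec, dotProduct, Fin.sum_univ_two]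
      rw [e1]; ring

/-- The half-turn `v ↦ (s, 0) - v`. -/
def halfTurn (s : ℝ) : Equiv.Perm Plane where
  toFun v := ![s - v 0, - v 1]
  invFun v := ![s - v 0, - v 1]
  left_inv v := by ext i; fin_cases i <;> simp
  right_inv v := by ext i; fin_cases i <;> simp

theorem halfTurn_mem (s : ℝ) : halfTurn s ∈ SE2 := by
  refine ⟨-1, ?_, ![s, 0], fun v => ?_⟩
  · rw [Matrix.mem_specialOrthogonalGroup_iff, Matrix.mem_orthogonalGroup_iff]
    constructor
    · simp
    · rw [Matrix.det_fin_two]; simp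
  · ext i
    fin_cases i
    · simp [halfTurn, Matrix.neg_mulVec]; ring
    · simp [halfTurn, Matrix.neg_mulVec]

theorem halfTurn_ne (s : ℝ) : halfTurn s ≠ 1 := by
  intro h
  have := congrFun (congrArg (fun g : Equiv.Perm Plane => (g : Plane → Plane)) h) ![0, 1]
  have h1 := congrFun this 1
  simp [halfTurn] at h1
  norm_num at h1

/-- The upper bound, with two colours. -/
theorem upper {W : Set Plane} (hW : (4 : ℕ∞) ≤ W.encard) : ExtProp SE2 2 W := by
  classical
  intro c
  obtain ⟨V, hVW, hV⟩ := Set.exists_subset_encard_eq hW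
  obtain ⟨x₁, x₂, x₃, x₄, h12, h13, h14, h23, h24, h34, hVe⟩ := Set.encard_eq_four.1 hV
  subst hVe
  by_contra hcon
  push Not at hcon
  set f : ℂ → ℤ := fun z => if h : toC.symm z ∉ W then ((c ⟨toC.symm z, h⟩ : Fin 2) : ℤ) else 0
    with hf
  have hinj : Function.Injective toC := toC.injective
  refine core (a := toC x₁) (b := toC x₂) (c := toC x₃) (d := toC x₄) (f := f)
    (hinj.ne h12) (hinj.ne h13) (hinj.ne h14) (hinj.ne h23) (hinj.ne h24) (hinj.ne h34) ?_
  intro X hX
  have hXW : ∀ z ∈ X, toC.symm z ∈ W := by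
    intro z hz
    have := hX hz
    simp only [Finset.mem_insert, Finset.mem_singleton] at this
    apply hVW
    rcases this with h | h | h | h <;> simp [h]
  set c' : Plane → Fin 2 := fun v => if h : v ∉ W then c ⟨v, h⟩ else if toC v ∈ X then 1 else 0
    with hc'
  have hval : ∀ v, ((c' v : Fin 2) : ℤ) = pl f X (toC v) := by
    intro v
    unfold pl
    simp only [hc', hf, Equiv.symm_apply_apply]
    by_cases h : v ∈ W
    · simp only [h, not_true_eq_false, dite_false]
      split_ifs <;> simp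
    · have h2 : toC v ∉ X := by
        intro h3
        have := hXW _ h3
        rw [Equiv.symm_apply_apply] at this
        exact h this
      simp [h, h2]
  have h1 := hcon c' (fun x => by simp [hc', x.2])
  unfold Distinguishing at h1
  push Not at h1
  obtain ⟨g, hg, hg1⟩ := h1
  obtain ⟨ρ, t, hρ, hgt⟩ := se2_toC g.2
  refine ⟨ρ, t, hρ, ?_, fun z => ?_⟩
  · rintro ⟨rfl, rfl⟩
    apply hg1
    apply Subtype.ext
    apply Equiv.ext
    intro v
    apply hinj
    rw [hgt]
    simp
  · have h2 := hg (toC.symm z)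
    have h3 : toC (g • toC.symm z) = ρ * z + t := by
      have := hgt (toC.symm z)
      rw [Equiv.apply_symm_apply] at this
      exact this
    rw [← h3, ← hval, h2, hval, Equiv.apply_symm_apply]

/-- The three collinear points used for the lower bound. -/
def W3 : Set Plane := {![-1, 0], ![0, 0], ![1, 0]}

theorem W3_card : W3.encard = 3 := by
  rw [Set.encard_eq_three]
  refine ⟨![-1, 0], ![0, 0], ![1, 0], ?_, ?_, ?_, rfl⟩
  · intro h; have := congrFun h 0; simp at this
  · intro h; have := congrFun h 0; simp at this; norm_num at this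
  · intro h; have := congrFun h 0; simp at this

theorem W3_adm : Admissible SE2 W3 := by
  intro g hg
  obtain ⟨ρ, t, hρ, hgt⟩ := se2_toC g.2
  have h0 : toC ((g : Equiv.Perm Plane) ![0, 0]) = toC ![0, 0] := congrArg toC (hg ![0, 0] (by simp [W3]))
  have h1 : toC ((g : Equiv.Perm Plane) ![1, 0]) = toC ![1, 0] := congrArg toC (hg ![1, 0] (by simp [W3]))
  rw [hgt] at h0 h1
  have z0 : toC ![0, 0] = 0 := by apply Complex.ext <;> simp [toC]
  have z1 : toC ![1, 0] = 1 := by apply Complex.ext <;> simp [toC]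
  rw [z0] at h0
  rw [z1] at h1
  have ht : t = 0 := by linear_combination h0
  have hρ1 : ρ = 1 := by linear_combination h1 - ht
  apply Subtype.ext
  apply Equiv.ext
  intro v
  apply toC.injective
  rw [hgt, ht, hρ1]
  simp

theorem lower : ¬ ExtProp SE2 2 W3 := by
  intro h
  obtain ⟨c', hc', hd⟩ := h (fun _ => 0)
  have hoff : ∀ v : Plane, v ∉ W3 → c' v = 0 := fun v hv => hc' ⟨v, hv⟩
  have key : ∀ s : ℝ, ¬ ∀ v, c' ((halfTurn s) v) = c' v := by
    intro s hs
    have := hd ⟨halfTurn s, halfTurn_mem s⟩ hs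
    exact halfTurn_ne s (congrArg Subtype.val this)
  have hv : ∀ v : Plane, v = ![v 0, v 1] := by
    intro v; ext i; fin_cases i <;> rfl
  have hform : ∀ x y : ℝ, c' ![x, y] = if y = 0 ∧ x = -1 then c' ![-1, 0] else
      if y = 0 ∧ x = 0 then c' ![0, 0] else if y = 0 ∧ x = 1 then c' ![1, 0] else 0 := by
    intro x y
    split_ifs with h1 h2 h3
    · rw [h1.1, h1.2]
    · rw [h2.1, h2.2]
    · rw [h3.1, h3.2]
    · apply hoff
      intro h
      rcases h with h | h | h
      · have e0 := congrFun h 0; have e1 := congrFun h 1; simp at e0 e1; exact h1 ⟨e1, e0⟩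
      · have e0 := congrFun h 0; have e1 := congrFun h 1; simp at e0 e1; exact h2 ⟨e1, e0⟩
      · have e0 := congrFun h 0; have e1 := congrFun h 1; simp at e0 e1; exact h3 ⟨e1, e0⟩
  have key' : ∀ s : ℝ, ¬ ∀ x y : ℝ, c' ![s - x, -y] = c' ![x, y] := by
    intro s hs
    apply key s
    intro v
    rw [hv v]
    exact hs _ _
  generalize c' ![-1, 0] = α at hform
  generalize c' ![0, 0] = β at hform
  generalize c' ![1, 0] = γ at hform
  have k0 := key' 0
  have k1 := key' (-2)
  have k2 := key' (-1)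
  have k3 := key' 2
  have k4 := key' 1
  simp only [hform] at k0 k1 k2 k3 k4
  have hα : α = 0 ∨ α = 1 := by fin_cases α <;> simp
  have hβ : β = 0 ∨ β = 1 := by fin_cases β <;> simp
  have hγ : γ = 0 ∨ γ = 1 := by fin_cases γ <;> simp
  rcases hα with rfl | rfl <;> rcases hγ with rfl | rfl
  · apply k0
    intro x y
    split_ifs <;> first | rfl | (exfalso; grind)
  · rcases hβ with rfl | rfl
    · apply k3
      intro x y
      split_ifs <;> first | rfl | (exfalso; grind)
    · apply k4
      intro x y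
      split_ifs <;> first | rfl | (exfalso; grind)
  · rcases hβ with rfl | rfl
    · apply k1
      intro x y
      split_ifs <;> first | rfl | (exfalso; grind)
    · apply k2
      intro x y
      split_ifs <;> first | rfl | (exfalso; grind)
  · apply k0
    intro x y
    split_ifs <;> first | rfl | (exfalso; grind)

/-- The distinguishing number of the plane under `SE(2)` is two, and its distinguishing extension
number is four. -/
theorem result : distNumber SE2 Plane = 2 ∧ extD SE2 Plane = 4 := by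
  have hD : distNumber SE2 Plane = 2 := by
    apply le_antisymm
    · apply Nat.sInf_le
      obtain ⟨c', _, hc'⟩ := upper (W := Set.univ) (by simp) (fun x => 0)
      exact ⟨c', hc'⟩
    · apply le_csInf
      · obtain ⟨c', _, hc'⟩ := upper (W := Set.univ) (by simp) (fun x => 0)
        exact ⟨2, c', hc'⟩
      · rintro k ⟨c, hc⟩
        by_contra hk
        push Not at hk
        interval_cases k
        · exact (c 0).elim0
        · have := hc ⟨halfTurn 0, halfTurn_mem 0⟩ (fun x => Subsingleton.elim _ _)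
          exact halfTurn_ne 0 (congrArg Subtype.val this)
  refine ⟨hD, ?_⟩
  unfold extD
  rw [hD]
  apply le_antisymm
  · apply sInf_le
    exact ⟨4, fun W _ hW => upper hW, rfl⟩
  · apply le_sInf
    rintro _ ⟨n, hn, rfl⟩
    by_contra hlt
    push Not at hlt
    have hn3 : n ≤ 3 := by
      have : (n : ℕ∞) < (4 : ℕ) := hlt
      have := ENat.coe_lt_coe.1 this
      omega
    apply lower
    apply hn W3 W3_adm
    rw [W3_card]
    exact_mod_cast hn3

end Pool.Agent.Results.MP_8e2340_co.RigidMotionsFour
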